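import Pool.Agent.H14.Deck3

set_option autoImplicit false

namespace Pool.Agent.Results.MP_9d0e7f_co.Counter

open Pool.Agent.H14.DeckDefs Pool.Agent.H14.Deck Pool.Agent.H14.HamUtil

theorem result : ∀ c : ℝ, 0 ≤ c → c < 1 → ∀ n₀ : ℕ, ∃ n : ℕ, n₀ ≤ n ∧
    ∃ G G' : SimpleGraph (Fin n),
      (∀ H : SimpleGraph (Fin ⌊c * n⌋₊), deckCount G ⌊c * n⌋₊ H = deckCount G' ⌊c * n⌋₊ H) ∧
      hamCount G ≠ hamCount G' := by
  intro c hc0 hc n₀
  classical
  obtain ⟨a, ha⟩ := exists_nat_ge (1 / (1 - c))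
  rw [div_le_iff₀ (by linarith)] at ha
  obtain ⟨m, hm, hm0, hma⟩ : ∃ m : ℕ, Even m ∧ 0 < m ∧ 2 ≤ (m + 1 : ℝ) * (1 - c) := by
    refine ⟨2 * a + 2, ⟨a + 1, by ring⟩, by omega, ?_⟩
    push_cast
    nlinarith
  obtain ⟨K, hK⟩ : ∃ K, K = Fintype.card (A m × Fin (m + 1) × B) := ⟨_, rfl⟩
  obtain ⟨l, hl⟩ : ∃ l, l = K + n₀ := ⟨_, rfl⟩
  have hcard : Fintype.card (V m l) = (m + 1) * (l + 3) + K := by
    rw [Fintype.card_sum, ← hK, Fintype.card_prod, Fintype.card_fin, Fintype.card_fin]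
  set n := Fintype.card (V m l) with hn
  have ht : ⌊c * n⌋₊ + (l + 3) + K < n := by
    have h1 : (⌊c * n⌋₊ : ℝ) ≤ c * n := Nat.floor_le (by positivity)
    have h2 : (n : ℝ) = (m + 1) * (l + 3) + K := by rw [hcard]; push_cast; ring
    have h3 : (K : ℝ) ≤ l := by exact_mod_cast (by omega : K ≤ l)
    have h4 : (0 : ℝ) ≤ K := by positivity
    have h5 : 2 * ((l : ℝ) + 3) ≤ (m + 1) * (1 - c) * (l + 3) :=
      mul_le_mul_of_nonneg_right hma (by linarith)
    have h6 : (0 : ℝ) ≤ K * (1 - c) := mul_nonneg h4 (by linarith)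
    have : (⌊c * n⌋₊ : ℝ) + (l + 3) + K < n := by nlinarith
    exact_mod_cast this
  let e : Fin n ≃ V m l := (Fintype.equivFin _).symm
  have h01 : (0 : Fin (m + 1)) ≠ Fin.last m := by
    intro h
    have := congrArg Fin.val h
    simp at this
    omega
  have hdeck : ∀ (Γ : SimpleGraph (V m l)) (t : ℕ) (H : SimpleGraph (Fin t)),
      deckCount (Γ.comap e) t H = deckCount Γ t H := by
    intro Γ t H
    unfold deckCount
    refine Set.ncard_congr' ((Equiv.finsetCongr e).subtypeEquiv fun S => ?_)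
    have iso : (Γ.comap e).induce (S : Set (Fin n)) ≃g
        Γ.induce ((Equiv.finsetCongr e S : Finset (V m l)) : Set (V m l)) :=
      ⟨e.subtypeEquiv (by simp), by rintro ⟨u, hu⟩ ⟨v, hv⟩; rfl⟩
    simp only [Set.mem_ofPred_eq]
    refine and_congr (by simp) ⟨fun ⟨f⟩ => ⟨iso.symm.trans f⟩, fun ⟨f⟩ => ⟨iso.trans f⟩⟩
  refine ⟨n, by rw [hcard]; nlinarith, (G 1).comap e, (G (Equiv.swap 0 (Fin.last m))).comap e,
    fun H => ?_, ?_⟩
  · rw [hdeck, hdeck]
    apply le_antisymm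
    · exact deck_le _ _ (by simp [Equiv.Perm.sign_swap h01]) _ (hK ▸ ht) H
    · exact deck_le _ _ (by simp [Equiv.Perm.sign_swap h01]) _ (hK ▸ ht) H
  · have h0 : hamCount ((G (l := l) (Equiv.swap 0 (Fin.last m))).comap e) = 0 := by
      unfold hamCount
      rw [Set.ncard_eq_zero (Set.toFinite _), Set.eq_empty_iff_forall_notMem]
      rintro s ⟨v, p, hp, -⟩
      have := hp.map (f := (SimpleGraph.Iso.comap e _).toHom) e.bijective
      exact not_ham hm hm0 (Equiv.Perm.sign_swap h01) (hc_of_ham this)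
    rw [h0]
    unfold hamCount
    rw [Ne, Set.ncard_eq_zero (Set.toFinite _), ← Ne, ← Set.nonempty_iff_ne_empty]
    obtain ⟨o, p, hp⟩ := is_ham (l := l) hm hm0
    have := hp.map (f := (SimpleGraph.Iso.comap e _).symm.toHom) e.symm.bijective
    exact ⟨_, _, _, this, rfl⟩

end Pool.Agent.Results.MP_9d0e7f_co.Counter
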